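import Pool.Agent.LKT.Stmts

/-!
# Row ONE of squad LKT: the one vertex lemma
-/

set_option autoImplicit false

open Topology

namespace Pool.Agent.LKT.H75

open Pool.Agent.LCK

/-- the non zero set of an affine function which does not vanish at `w` is dense -/
theorem dense_ne (a : E3) (b : ℝ) (w : E3) (hw : inner ℝ a w + b ≠ 0) :
    Dense {y : E3 | inner ℝ a y + b ≠ 0} := by
  intro y
  by_cases hy : inner ℝ a y + b = 0
  · have ht : Filter.Tendsto (fun n : ℕ => y + ((1 : ℝ) / ((n : ℝ) + 1)) • (w - y)) Filter.atTop (𝓝 y) := by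
      have h1 : Filter.Tendsto (fun n : ℕ => (1 : ℝ) / ((n : ℝ) + 1)) Filter.atTop (𝓝 0) :=
        tendsto_one_div_add_atTop_nhds_zero_nat
      have h2 : Filter.Tendsto (fun n : ℕ => y + ((1 : ℝ) / ((n : ℝ) + 1)) • (w - y)) Filter.atTop
          (𝓝 (y + (0 : ℝ) • (w - y))) := tendsto_const_nhds.add (h1.smul_const (w - y))
      simpa using h2
    refine mem_closure_of_tendsto ht (Filter.Eventually.of_forall fun n => ?_)
    have hpos : (0 : ℝ) < 1 / ((n : ℝ) + 1) := by positivity
    show inner ℝ a (y + ((1 : ℝ) / ((n : ℝ) + 1)) • (w - y)) + b ≠ 0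
    rw [inner_add_right, inner_smul_right, inner_sub_right]
    have hk : inner ℝ a y + 1 / ((n : ℝ) + 1) * (inner ℝ a w - inner ℝ a y) + b =
        1 / ((n : ℝ) + 1) * (inner ℝ a w + b) := by
      have h3 : inner ℝ a y = -b := by linarith
      rw [h3]; ring
    rw [hk]
    exact mul_ne_zero hpos.ne' hw
  · exact subset_closure hy

/-- the one vertex lemma for affine functions -/
theorem core (N : ℕ) (al : Fin N → E3) (be : Fin N → ℝ) (p : E3) (U : Set E3)
    (hUo : IsOpen U) (hUc : Convex ℝ U) (hp : p ∈ U)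
    (hpos : ∀ i, 0 < inner ℝ (al i) p + be i)
    (hNP : ∀ i j, i ≠ j → (∀ y : E3, inner ℝ (al i) y + be i ≠ 0) ∨
      ∃ y : E3, inner ℝ (al i) y + be i = 0 ∧ inner ℝ (al j) y + be j ≠ 0)
    (hW : ∀ y ∈ U, ∀ j, (∀ i, i ≠ j → 0 < inner ℝ (al i) y + be i) → inner ℝ (al j) y + be j ≠ 0) :
    ∀ y ∈ U, ∀ i, 0 < inner ℝ (al i) y + be i := by
  intro y0 hy0 t
  by_contra hneg
  have hneg' : inner ℝ (al t) y0 + be t ≤ 0 := not_lt.mp hneg
  -- the functions h i j
  set A : Fin N × Fin N → E3 := fun q =>
    (inner ℝ (al q.1) p + be q.1) • al q.2 - (inner ℝ (al q.2) p + be q.2) • al q.1 with hA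
  set B : Fin N × Fin N → ℝ := fun q =>
    (inner ℝ (al q.1) p + be q.1) * be q.2 - (inner ℝ (al q.2) p + be q.2) * be q.1 with hB
  have hval : ∀ (q : Fin N × Fin N) (y : E3), inner ℝ (A q) y + B q =
      (inner ℝ (al q.1) p + be q.1) * (inner ℝ (al q.2) y + be q.2) -
      (inner ℝ (al q.2) p + be q.2) * (inner ℝ (al q.1) y + be q.1) := by
    intro q y
    simp only [hA, hB]
    rw [inner_sub_left, real_inner_smul_left, real_inner_smul_left]
    ring
  -- the dense open set
  set G : Fin N × Fin N → Set E3 := fun q =>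
    {y : E3 | (∃ w : E3, inner ℝ (A q) w + B q ≠ 0) → inner ℝ (A q) y + B q ≠ 0} with hG
  have hGo : ∀ q, IsOpen (G q) := by
    intro q
    by_cases h : ∃ w : E3, inner ℝ (A q) w + B q ≠ 0
    · have : G q = {y : E3 | inner ℝ (A q) y + B q ≠ 0} := by
        ext y
        constructor
        · intro hy
          exact hy h
        · intro hy _
          exact hy
      rw [this]
      exact isOpen_ne_fun (by fun_prop) continuous_const
    · have : G q = Set.univ := by
        ext y
        constructor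
        · intro _
          exact Set.mem_univ _
        · intro _ h'
          exact absurd h' h
      rw [this]
      exact isOpen_univ
  have hGd : ∀ q, Dense (G q) := by
    intro q
    by_cases h : ∃ w : E3, inner ℝ (A q) w + B q ≠ 0
    · obtain ⟨w, hw⟩ := h
      refine (dense_ne (A q) (B q) w hw).mono ?_
      intro y hy _
      exact hy
    · refine dense_univ.mono ?_
      intro y _ h'
      exact absurd h' h
  have hGI : Dense (⋂ q, G q) := dense_iInter_of_isOpen hGo hGd
  -- the open set V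
  set V : Set E3 := U ∩ {y : E3 | inner ℝ (al t) y + be t < 0} with hV
  have hVo : IsOpen V := hUo.inter (isOpen_lt (by fun_prop) continuous_const)
  have hVn : V.Nonempty := by
    have ht : Filter.Tendsto (fun n : ℕ => y0 + ((1 : ℝ) / ((n : ℝ) + 1)) • (y0 - p)) Filter.atTop
        (𝓝 y0) := by
      have h1 : Filter.Tendsto (fun n : ℕ => (1 : ℝ) / ((n : ℝ) + 1)) Filter.atTop (𝓝 0) :=
        tendsto_one_div_add_atTop_nhds_zero_nat
      have h2 : Filter.Tendsto (fun n : ℕ => y0 + ((1 : ℝ) / ((n : ℝ) + 1)) • (y0 - p)) Filter.atTop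
          (𝓝 (y0 + (0 : ℝ) • (y0 - p))) := tendsto_const_nhds.add (h1.smul_const (y0 - p))
      simpa using h2
    obtain ⟨n, hn⟩ := (ht.eventually (hUo.mem_nhds hy0)).exists
    refine ⟨_, hn, ?_⟩
    have hposn : (0 : ℝ) < 1 / ((n : ℝ) + 1) := by positivity
    show inner ℝ (al t) (y0 + ((1 : ℝ) / ((n : ℝ) + 1)) • (y0 - p)) + be t < 0
    rw [inner_add_right, inner_smul_right, inner_sub_right]
    have h3 := hpos t
    have h4 : 1 / ((n : ℝ) + 1) * (inner ℝ (al t) y0 - inner ℝ (al t) p) < 0 := by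
      refine mul_neg_of_pos_of_neg hposn ?_
      linarith
    linarith
  obtain ⟨y', hy'V, hy'G⟩ := hGI.inter_open_nonempty V hVo hVn
  rw [Set.mem_iInter] at hy'G
  obtain ⟨hy'U, hy't⟩ := hy'V
  have hy't' : inner ℝ (al t) y' + be t < 0 := hy't
  -- the first wall
  set S : Finset (Fin N) := Finset.univ.filter fun i => inner ℝ (al i) y' + be i < 0 with hS
  have hSn : S.Nonempty := ⟨t, by simp [hS, hy't']⟩
  obtain ⟨i0, hi0S, hi0⟩ := Finset.exists_min_image S (fun i =>
    (inner ℝ (al i) p + be i) / ((inner ℝ (al i) p + be i) - (inner ℝ (al i) y' + be i))) hSn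
  have hi0neg : inner ℝ (al i0) y' + be i0 < 0 := by
    rw [hS, Finset.mem_filter] at hi0S
    exact hi0S.2
  set u : ℝ := inner ℝ (al i0) p + be i0 with hu
  set v : ℝ := inner ℝ (al i0) y' + be i0 with hv
  have hupos : 0 < u := hpos i0
  set τ : ℝ := u / (u - v) with hτ
  have hd : 0 < u - v := by linarith
  have hτ0 : 0 < τ := div_pos hupos hd
  have hτ1 : τ < 1 := by
    rw [hτ, div_lt_one hd]; linarith
  have hτe : τ * (u - v) = u := div_mul_cancel₀ u hd.ne'
  -- the point
  have hyU : p + τ • (y' - p) ∈ U := hUc.add_smul_sub_mem hp hy'U ⟨hτ0.le, hτ1.le⟩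
  have hg : ∀ i, inner ℝ (al i) (p + τ • (y' - p)) + be i =
      (inner ℝ (al i) p + be i) - τ * ((inner ℝ (al i) p + be i) - (inner ℝ (al i) y' + be i)) := by
    intro i
    rw [inner_add_right, inner_smul_right, inner_sub_right]
    ring
  have hz0 : inner ℝ (al i0) (p + τ • (y' - p)) + be i0 = 0 := by
    rw [hg i0, ← hu, ← hv, hτe]; ring
  refine hW _ hyU i0 ?_ hz0
  intro j hj
  rw [hg j]
  set a : ℝ := inner ℝ (al j) p + be j with ha
  set b : ℝ := inner ℝ (al j) y' + be j with hb
  have hapos : 0 < a := hpos j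
  by_cases hbneg : b < 0
  · have hjS : j ∈ S := by
      rw [hS, Finset.mem_filter]
      exact ⟨Finset.mem_univ _, hbneg⟩
    have hle : τ ≤ a / (a - b) := hi0 j hjS
    have hab : 0 < a - b := by linarith
    have hne : τ ≠ a / (a - b) := by
      intro he
      have h1 : τ * (a - b) = a := by rw [he]; exact div_mul_cancel₀ a hab.ne'
      -- u * b = a * v
      have h2 : u * b - a * v = 0 := by
        have h3 : u * (a - b) = a * (u - v) := by
          calc u * (a - b) = (τ * (u - v)) * (a - b) := by rw [hτe]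
            _ = (τ * (a - b)) * (u - v) := by ring
            _ = a * (u - v) := by rw [h1]
        linarith
      rcases hNP i0 j (Ne.symm hj) with h4 | ⟨w, hw1, hw2⟩
      · exact h4 _ hz0
      · have h5 : inner ℝ (A (i0, j)) w + B (i0, j) ≠ 0 := by
          rw [hval]
          show u * (inner ℝ (al j) w + be j) - a * (inner ℝ (al i0) w + be i0) ≠ 0
          rw [hw1, mul_zero, sub_zero]
          exact mul_ne_zero hupos.ne' hw2
        have h6 : inner ℝ (A (i0, j)) y' + B (i0, j) ≠ 0 := hy'G (i0, j) ⟨w, h5⟩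
        rw [hval] at h6
        exact h6 h2
    have hlt : τ < a / (a - b) := lt_of_le_of_ne hle hne
    have h7 : τ * (a - b) < a := (lt_div_iff₀ hab).mp hlt
    linarith
  · have hb0 : 0 ≤ b := not_lt.mp hbneg
    have h8 : a - τ * (a - b) = (1 - τ) * a + τ * b := by ring
    rw [h8]
    have h9 : 0 < (1 - τ) * a := mul_pos (by linarith) hapos
    have h10 : 0 ≤ τ * b := mul_nonneg hτ0.le hb0
    linarith

/-- Row ONE -/
theorem one : OneStmt := by
  intro N f z k U haff hUo hUc hz hpos hNP hW y hy i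
  choose al be hab using haff
  have hz' : ∀ i, f i z = inner ℝ (al i) (z k) + be i := by
    intro i
    rw [← hab i (z k), Function.update_eq_self]
  rw [hab i y]
  refine core N al be (z k) U hUo hUc hz ?_ ?_ ?_ y hy i
  · intro i
    rw [← hz' i]
    exact hpos i
  · intro i j hij
    rcases hNP i j hij with h | ⟨w, h1, h2⟩
    · left
      intro y
      rw [← hab i y]
      exact h y
    · right
      refine ⟨w, ?_, ?_⟩
      · rw [← hab i w]; exact h1
      · rw [← hab j w]; exact h2
  · intro y hy j h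
    rw [← hab j y]
    refine hW y hy j ?_
    intro i hi
    rw [hab i y]
    exact h i hi

end Pool.Agent.LKT.H75
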